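import Mathlib
import Pool.Agent.H10.Dag

set_option autoImplicit false

namespace Pool.Agent.Results.MP_f59edb_pr.Limit
open Pool.Agent.H10.Dag Filter Topology

theorem result (x y : ℕ) (hx : 1 ≤ x) (hy : 1 ≤ y) : Tendsto (fun n => r x y n) atTop (𝓝 1) :=
  main hx hy

end Pool.Agent.Results.MP_f59edb_pr.Limit
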